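import Mathlib
import Pool.Agent.H990R2.SF.Multi

/-!
Uniform random spanning forests of multigraphs: two edges with a common endpoint are negatively
correlated (`ε = 0`).
-/

namespace Pool.Agent.Results.MP_d90615_co.AdjacentEdges

open Finset

/-- `F` is a spanning forest of the loopless multigraph with edges `ι` and endpoints `ends`: no
two edges of `F` are parallel and the simple graph spanned by `F` has no cycle. -/
def IsForest {V ι : Type*} (ends : ι → Sym2 V) (F : Finset ι) : Prop :=
  Set.InjOn ends (F : Set ι) ∧ (SimpleGraph.fromEdgeSet (ends '' (F : Set ι))).IsAcyclic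

open Classical in
/-- The probability that a uniformly random spanning forest contains `X`. -/
noncomputable def Pr {V ι : Type*} [Fintype ι] (ends : ι → Sym2 V) (X : Finset ι) : ℝ :=
  ((univ.filter fun F : Finset ι => X ⊆ F ∧ IsForest ends F).card : ℝ) /
    ((univ.filter fun F : Finset ι => IsForest ends F).card : ℝ)

open Classical in
/-- **Edges with a common endpoint are negatively correlated in the uniform random spanning
forest of every finite multigraph.** -/
theorem result {V ι : Type*} [Fintype V] [Fintype ι] (ends : ι → Sym2 V)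
    (hl : ∀ i, ¬ (ends i).IsDiag) (v : V) (e f : ι) (hef : e ≠ f) (he : v ∈ ends e)
    (hf : v ∈ ends f) : Pr ends {e, f} ≤ Pr ends {e} * Pr ends {f} := by
  have hnum : ∀ X : Finset ι,
      ((univ.filter fun F : Finset ι => X ⊆ F ∧ IsForest ends F).card : ℝ) =
      H990SF.NX (H990SF.fa ends) (H990SF.fb ends) univ (fun _ => 1) X := by
    intro X
    rw [← H990SF.numForest_eq ends hl X]
    rfl
  have hden : ((univ.filter fun F : Finset ι => IsForest ends F).card : ℝ) =
      H990SF.NX (H990SF.fa ends) (H990SF.fb ends) univ (fun _ => 1) ∅ := by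
    rw [← hnum]
    simp
  have hpos : 0 < ((univ.filter fun F : Finset ι => IsForest ends F).card : ℝ) := by
    have : (∅ : Finset ι) ∈ univ.filter fun F : Finset ι => IsForest ends F := by
      rw [Finset.mem_filter]
      refine ⟨Finset.mem_univ _, by simp, ?_⟩
      have : SimpleGraph.fromEdgeSet (ends '' ((∅ : Finset ι) : Set ι)) = ⊥ := by simp
      rw [this]
      exact SimpleGraph.isAcyclic_bot
    exact_mod_cast Finset.card_pos.2 ⟨_, this⟩
  have h := H990SF.star_rayleigh v (H990SF.fa ends) (H990SF.fb ends) univ (fun _ => 1)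
    (fun _ _ _ _ => zero_le_one) e f (mem_univ _) (mem_univ _) hef
    ((H990SF.mem_iff_ea_eb v (ends e)).1 he) ((H990SF.mem_iff_ea_eb v (ends f)).1 hf)
  rw [← hden, ← hnum, ← hnum, ← hnum] at h
  unfold Pr
  set Z : ℝ := ((univ.filter fun F : Finset ι => IsForest ends F).card : ℝ) with hZ
  rw [div_mul_div_comm, div_le_div_iff₀ hpos (mul_pos hpos hpos)]
  nlinarith [h, hpos]

end Pool.Agent.Results.MP_d90615_co.AdjacentEdges
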