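import Mathlib
import Pool.Agent.H990R2.SF.Multi

/-!
Every finite graph is `1/3`-correlated: `Pr(e, f ∈ F) ≤ (4/3) Pr(e ∈ F) Pr(f ∈ F)`.
-/

namespace Pool.Agent.Results.MP_d90615_co.EpsOneThird

open Finset

/-- `F` is a spanning forest of the loopless multigraph with edges `ι` and endpoints `ends`: no
two edges of `F` are parallel and the simple graph spanned by `F` has no cycle. -/
def IsForest {V ι : Type} (ends : ι → Sym2 V) (F : Finset ι) : Prop :=
  Set.InjOn ends (F : Set ι) ∧ (SimpleGraph.fromEdgeSet (ends '' (F : Set ι))).IsAcyclic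

open Classical in
/-- The probability that a uniformly random spanning forest contains `X`. -/
noncomputable def Pr {V ι : Type} [Fintype ι] (ends : ι → Sym2 V) (X : Finset ι) : ℝ :=
  ((univ.filter fun F : Finset ι => X ⊆ F ∧ IsForest ends F).card : ℝ) /
    ((univ.filter fun F : Finset ι => IsForest ends F).card : ℝ)

open Classical in
/-- Every finite loopless multigraph is `ε`-correlated. -/
def AllCorrelated (ε : ℝ) : Prop :=
  ∀ (V ι : Type) [Fintype V] [Fintype ι] (ends : ι → Sym2 V), (∀ i, ¬ (ends i).IsDiag) →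
    ∀ e f : ι, e ≠ f → Pr ends {e, f} ≤ (1 + ε) * (Pr ends {e} * Pr ends {f})

/-- The constant `ε*` of the problem. -/
noncomputable def epsStar : ℝ := sInf {ε : ℝ | 0 ≤ ε ∧ AllCorrelated ε}

/-- **Every finite graph is `1/3`-correlated, hence `ε* ≤ 1/3`.** -/
theorem result : AllCorrelated (1 / 3) ∧ epsStar ≤ 1 / 3 := by
  classical
  have key : AllCorrelated (1 / 3) := by
    intro V ι _ _ ends hl e f hef
    have hnum : ∀ X : Finset ι,
        ((univ.filter fun F : Finset ι => X ⊆ F ∧ IsForest ends F).card : ℝ) =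
        H990SF.NX (H990SF.fa ends) (H990SF.fb ends) univ (fun _ => 1) X := by
      intro X
      rw [← H990SF.numForest_eq ends hl X]
      rfl
    have hden : ((univ.filter fun F : Finset ι => IsForest ends F).card : ℝ) =
        H990SF.NX (H990SF.fa ends) (H990SF.fb ends) univ (fun _ => 1) ∅ := by
      rw [← hnum]
      simp
    have hpos : 0 < ((univ.filter fun F : Finset ι => IsForest ends F).card : ℝ) := by
      have : (∅ : Finset ι) ∈ univ.filter fun F : Finset ι => IsForest ends F := by
        rw [Finset.mem_filter]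
        refine ⟨Finset.mem_univ _, by simp, ?_⟩
        have : SimpleGraph.fromEdgeSet (ends '' ((∅ : Finset ι) : Set ι)) = ⊥ := by simp
        rw [this]
        exact SimpleGraph.isAcyclic_bot
      exact_mod_cast Finset.card_pos.2 ⟨_, this⟩
    have h := H990SF.four_thirds (H990SF.fa ends) (H990SF.fb ends) univ (fun _ => 1)
      (fun _ _ => zero_le_one) e f (mem_univ _) (mem_univ _) hef
    rw [← hden, ← hnum, ← hnum, ← hnum] at h
    unfold Pr
    set Z : ℝ := ((univ.filter fun F : Finset ι => IsForest ends F).card : ℝ) with hZ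
    rw [div_mul_div_comm, ← mul_div_assoc, div_le_div_iff₀ hpos (mul_pos hpos hpos)]
    nlinarith [h, hpos]
  refine ⟨key, ?_⟩
  exact csInf_le ⟨0, fun x hx => hx.1⟩ ⟨by norm_num, key⟩

end Pool.Agent.Results.MP_d90615_co.EpsOneThird
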