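import Mathlib
import Pool.Agent.H990R2.SF.SymSimple

/-!
Uniform random spanning forests: negative correlation on average over the three pairings of four
vertices, and for symmetric quadruples.
-/

namespace Pool.Agent.Results.MP_d90615_co.FourPoint

open Finset

/-- `F` is a spanning forest of the loopless multigraph with edges `ι` and endpoints `ends`: no
two edges of `F` are parallel and the simple graph spanned by `F` has no cycle. -/
def IsForest {V ι : Type*} (ends : ι → Sym2 V) (F : Finset ι) : Prop :=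
  Set.InjOn ends (F : Set ι) ∧ (SimpleGraph.fromEdgeSet (ends '' (F : Set ι))).IsAcyclic

open Classical in
/-- The probability that a uniformly random spanning forest contains `X`. -/
noncomputable def Pr {V ι : Type*} [Fintype ι] (ends : ι → Sym2 V) (X : Finset ι) : ℝ :=
  ((univ.filter fun F : Finset ι => X ⊆ F ∧ IsForest ends F).card : ℝ) /
    ((univ.filter fun F : Finset ι => IsForest ends F).card : ℝ)

open Classical in
/-- **Four vertices.** Let `a, b, c, d` be distinct vertices of a loopless multigraph and let `e₁`,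
`f₁`, `e₂`, `f₂`, `e₃`, `f₃` be edges `ab`, `cd`, `ac`, `bd`, `ad`, `bc`. The three pairs of
disjoint edges are negatively correlated on average. If moreover some automorphism `(σ, τ)` of
the multigraph fixes `a` and maps `b → c → d → b`, then `e₁` and `f₁` are negatively
correlated; this second part needs only the edges `e₁` and `f₁`. -/
theorem result {V ι : Type*} [Fintype V] [Fintype ι] (ends : ι → Sym2 V)
    (hl : ∀ i, ¬ (ends i).IsDiag) (a b c d : V) (hab : a ≠ b) (hac : a ≠ c) (had : a ≠ d)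
    (hbc : b ≠ c) (hbd : b ≠ d) (hcd : c ≠ d) (e₁ f₁ : ι) (he₁ : ends e₁ = s(a, b))
    (hf₁ : ends f₁ = s(c, d)) :
    (∀ e₂ f₂ e₃ f₃ : ι, ends e₂ = s(a, c) → ends f₂ = s(b, d) → ends e₃ = s(a, d) →
      ends f₃ = s(b, c) →
      Pr ends {e₁, f₁} + Pr ends {e₂, f₂} + Pr ends {e₃, f₃} ≤
        Pr ends {e₁} * Pr ends {f₁} + Pr ends {e₂} * Pr ends {f₂}
          + Pr ends {e₃} * Pr ends {f₃})
    ∧ ((∃ (σ : ι ≃ ι) (τ : V ≃ V), (∀ i, ends (σ i) = Sym2.map τ (ends i)) ∧ τ a = a ∧
        τ b = c ∧ τ c = d ∧ τ d = b) →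
      Pr ends {e₁, f₁} ≤ Pr ends {e₁} * Pr ends {f₁}) := by
  have hnum : ∀ X : Finset ι,
      ((univ.filter fun F : Finset ι => X ⊆ F ∧ IsForest ends F).card : ℝ) =
      H990SF.NX (H990SF.fa ends) (H990SF.fb ends) univ (fun _ => 1) X := by
    intro X
    rw [← H990SF.numForest_eq ends hl X]
    rfl
  have hden : ((univ.filter fun F : Finset ι => IsForest ends F).card : ℝ) =
      H990SF.NX (H990SF.fa ends) (H990SF.fb ends) univ (fun _ => 1) ∅ := by
    rw [← hnum]
    simp
  have hpos : 0 < ((univ.filter fun F : Finset ι => IsForest ends F).card : ℝ) := by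
    have : (∅ : Finset ι) ∈ univ.filter fun F : Finset ι => IsForest ends F := by
      rw [Finset.mem_filter]
      refine ⟨Finset.mem_univ _, by simp, ?_⟩
      have : SimpleGraph.fromEdgeSet (ends '' ((∅ : Finset ι) : Set ι)) = ⊥ := by simp
      rw [this]
      exact SimpleGraph.isAcyclic_bot
    exact_mod_cast Finset.card_pos.2 ⟨_, this⟩
  have hfab : ∀ i, s(H990SF.fa ends i, H990SF.fb ends i) = ends i := H990SF.fa_fb ends
  have two : ∀ (e f : ι) (x y z u : V), ends e = s(x, y) → ends f = s(z, u) → x ≠ z → x ≠ u →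
      y ≠ z → y ≠ u →
      H990SF.NX (H990SF.fa ends) (H990SF.fb ends) univ (fun _ => 1) {e, f} =
      H990SF.GS (H990SF.fa ends) (H990SF.fb ends) univ (fun _ => 1)
        (insert (x, y) (insert (z, u) ∅)) := by
    intro e f x y z u he hf h1 h2 h3 h4
    have hef : e ≠ f := by
      rintro rfl
      rw [he] at hf
      rcases Sym2.eq_iff.1 hf with ⟨k, -⟩ | ⟨k, -⟩
      · exact h1 k
      · exact h2 k
    exact H990SF.NX_GS2' _ _ _ _ e f (mem_univ _) (mem_univ _) hef x y z u
      ((hfab e).trans he) ((hfab f).trans hf) h1 h2 h3 h4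
  have one : ∀ (e : ι) (x y : V), ends e = s(x, y) →
      H990SF.NX (H990SF.fa ends) (H990SF.fb ends) univ (fun _ => 1) {e} =
      H990SF.GS (H990SF.fa ends) (H990SF.fb ends) univ (fun _ => 1) (insert (x, y) ∅) := by
    intro e x y he
    exact H990SF.NX_GS1' _ _ _ _ e (mem_univ _) x y ((hfab e).trans he)
  constructor
  · intro e₂ f₂ e₃ f₃ he₂ hf₂ he₃ hf₃
    have h := H990SF.four_point (H990SF.fa ends) (H990SF.fb ends) univ (fun _ => 1)
      (fun _ _ => zero_le_one) hab hac had hbc hbd hcd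
    rw [← two e₁ f₁ a b c d he₁ hf₁ hac had hbc hbd,
      ← two e₂ f₂ a c b d he₂ hf₂ hab had (Ne.symm hbc) hcd,
      ← two e₃ f₃ a d b c he₃ hf₃ hab hac (Ne.symm hbd) (Ne.symm hcd),
      ← one e₁ a b he₁, ← one f₁ c d hf₁, ← one e₂ a c he₂, ← one f₂ b d hf₂,
      ← one e₃ a d he₃, ← one f₃ b c hf₃, ← H990SF.NX_GS0] at h
    unfold Pr
    simp only [hnum]
    rw [← hden] at h
    set D := ((univ.filter fun F : Finset ι => IsForest ends F).card : ℝ)
    rw [div_mul_div_comm, div_mul_div_comm, div_mul_div_comm, ← add_div, ← add_div, ← add_div,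
      ← add_div, div_le_div_iff₀ hpos (mul_pos hpos hpos)]
    nlinarith [mul_le_mul_of_nonneg_right h hpos.le]
  · rintro ⟨σ, τ, hστ, ta, tb, tc, td⟩
    have h := H990SF.sym_NX (H990SF.fa ends) (H990SF.fb ends) univ (fun _ => 1)
      (fun _ _ => zero_le_one) hab hac had hbc hbd hcd e₁ f₁ (mem_univ _) (mem_univ _)
      ((hfab e₁).trans he₁) ((hfab f₁).trans hf₁) σ τ
      (fun i => by rw [hfab, hfab]; exact hστ i) (fun i => by simp) (fun _ _ => rfl) ta tb tc td
    unfold Pr
    rw [← hden, ← hnum, ← hnum, ← hnum] at h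
    rw [div_mul_div_comm, div_le_div_iff₀ hpos (mul_pos hpos hpos), ← mul_assoc]
    exact mul_le_mul_of_nonneg_right h hpos.le

end Pool.Agent.Results.MP_d90615_co.FourPoint
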