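import Mathlib
import Pool.Agent.H990R2.SF.Lump

/-!
Uniform random spanning forests of complete multigraphs with product multiplicities.
-/

namespace Pool.Agent.Results.MP_d90615_co.ProductMultigraphs

open Finset

/-- `F` is a spanning forest of the loopless multigraph with edges `ι` and endpoints `ends`: no
two edges of `F` are parallel and the simple graph spanned by `F` has no cycle. -/
def IsForest {V ι : Type*} (ends : ι → Sym2 V) (F : Finset ι) : Prop :=
  Set.InjOn ends (F : Set ι) ∧ (SimpleGraph.fromEdgeSet (ends '' (F : Set ι))).IsAcyclic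

open Classical in
/-- The probability that a uniformly random spanning forest contains `X`. -/
noncomputable def Pr {V ι : Type*} [Fintype ι] (ends : ι → Sym2 V) (X : Finset ι) : ℝ :=
  ((univ.filter fun F : Finset ι => X ⊆ F ∧ IsForest ends F).card : ℝ) /
    ((univ.filter fun F : Finset ι => IsForest ends F).card : ℝ)

open Classical in
lemma submod {V ι : Type*} [Fintype V] [Fintype ι] (ends : ι → Sym2 V)
    (hl : ∀ i, ¬ (ends i).IsDiag) (x : V → ℝ) (hx : ∀ v, 0 ≤ x v)
    (hm : ∀ u v : V, u ≠ v → ((univ.filter fun i : ι => ends i = s(u, v)).card : ℝ) = x u * x v)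
    (S T : Finset ι) : Pr ends (S ∪ T) * Pr ends (S ∩ T) ≤ Pr ends S * Pr ends T := by
  have hnum : ∀ X : Finset ι,
      ((univ.filter fun F : Finset ι => X ⊆ F ∧ IsForest ends F).card : ℝ) =
      H990SF.NX (H990SF.fa ends) (H990SF.fb ends) univ (fun _ => 1) X := by
    intro X
    rw [← H990SF.numForest_eq ends hl X]
    rfl
  have h := H990SF.multi_submodular ends hl x hx hm S T
  unfold Pr
  rw [hnum, hnum, hnum, hnum, div_mul_div_comm, div_mul_div_comm]
  exact div_le_div_of_nonneg_right h (mul_nonneg (Nat.cast_nonneg _) (Nat.cast_nonneg _))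

open Classical in
lemma Pr_empty {V ι : Type*} [Fintype ι] (ends : ι → Sym2 V) : Pr ends ∅ = 1 := by
  have hpos : 0 < ((univ.filter fun F : Finset ι => IsForest ends F).card : ℝ) := by
    have : (∅ : Finset ι) ∈ univ.filter fun F : Finset ι => IsForest ends F := by
      rw [Finset.mem_filter]
      refine ⟨Finset.mem_univ _, by simp, ?_⟩
      have : SimpleGraph.fromEdgeSet (ends '' ((∅ : Finset ι) : Set ι)) = ⊥ := by simp
      rw [this]
      exact SimpleGraph.isAcyclic_bot
    exact_mod_cast Finset.card_pos.2 ⟨_, this⟩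
  unfold Pr
  have h : (univ.filter fun F : Finset ι => ∅ ⊆ F ∧ IsForest ends F) =
      univ.filter fun F : Finset ι => IsForest ends F := by
    ext F; simp
  rw [h, div_self hpos.ne']

open Classical in
/-- **Complete multigraphs with product multiplicities are `0`-correlated, for all sets of edges.**
`ends` gives the endpoints of the edges of a loopless multigraph in which any two distinct
vertices `u`, `v` are joined by exactly `x u * x v` parallel edges, for some real `x ≥ 0`
(`x = √m`: every multiplicity equals `m`). -/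
theorem result {V ι : Type*} [Fintype V] [Fintype ι] (ends : ι → Sym2 V)
    (hl : ∀ i, ¬ (ends i).IsDiag) (x : V → ℝ) (hx : ∀ v, 0 ≤ x v)
    (hm : ∀ u v : V, u ≠ v → ((univ.filter fun i : ι => ends i = s(u, v)).card : ℝ) = x u * x v) :
    (∀ e f : ι, e ≠ f → Pr ends {e, f} ≤ Pr ends {e} * Pr ends {f})
    ∧ (∀ S T : Finset ι, Pr ends (S ∪ T) * Pr ends (S ∩ T) ≤ Pr ends S * Pr ends T)
    ∧ (∀ S : Finset ι, Pr ends S ≤ ∏ e ∈ S, Pr ends {e}) := by
  have hA := submod ends hl x hx hm
  have hpair : ∀ (S : Finset ι) (e : ι), e ∉ S →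
      Pr ends (insert e S) ≤ Pr ends {e} * Pr ends S := by
    intro S e he
    have h := hA {e} S
    have h1 : ({e} : Finset ι) ∩ S = ∅ := by
      rw [← Finset.disjoint_iff_inter_eq_empty]; simpa using he
    have h2 : ({e} : Finset ι) ∪ S = insert e S := rfl
    rwa [h1, h2, Pr_empty, mul_one] at h
  have hnn : ∀ X, 0 ≤ Pr ends X := fun X => div_nonneg (Nat.cast_nonneg _) (Nat.cast_nonneg _)
  refine ⟨fun e f hef => hpair {f} e (by simpa using hef), hA, ?_⟩
  intro S
  induction S using Finset.induction_on with
  | empty => simp [Pr_empty]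
  | insert e S he ih =>
    rw [Finset.prod_insert he]
    exact (hpair S e he).trans (mul_le_mul_of_nonneg_left ih (hnn _))

end Pool.Agent.Results.MP_d90615_co.ProductMultigraphs
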